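import Pool.Agent.Lib_MP_22d2c8_sto.Main

/-!
# Storing values costs `n log n` in every circuit for the pointer function

The function `ptr a` has `n = 2 ^ a` data bits `x_w`, indexed by the words `w` of length `a`, and `a`
pointers `p_1, ..., p_a`, words of length `a`; its value is the data bit `x_u` with
`u = x_{p_1} ... x_{p_a}`.

For a circuit with arbitrary gates and an arbitrary schedule of its gates, each value has to be stored
from the time at which its gate works until the last time at which it is read, and each data bit from
the first until the last time at which it is read. In every circuit for `ptr a` whose gates have at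
most two sources, and for every schedule, the total time of storage is at least
`n (log₂ n - O(log log n))`; a data bit read again after more than `log₂ n` steps is charged with
`log₂ n` only. The theorem gives this bound for every set `I` of data bits, and for gates with at most
`2 ^ l` sources. In particular locally synchronous circuits for this function of one output (every
wire between gates spans one step, every data bit is read at one time) have `(1 - o(1)) n log₂ n`
gates.
-/

namespace Pool.Agent.Lib_MP_22d2c8_sto.Old.StorageTimeHandin

open Pool.Agent.Lib_MP_22d2c8_sto

theorem result : ∀ a l : ℕ, 1 ≤ l →
    ∀ C : Circuit ((Fin a → Bool) ⊕ (Fin a × Fin a)), C.Computes (ptr a) → C.FanInLE (2 ^ l) →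
    ∀ time : Fin C.size → ℕ, C.IsSchedule time →
    ∀ I : Finset (Fin a → Bool),
      I.card * Nat.log 2 I.card ≤ l * ∑ g, C.gateStorage time g +
        ∑ w ∈ I, min (Nat.log 2 I.card) (l * C.inputStorage time (Sum.inl w)) +
        I.card * (3 * Nat.clog 2 a + l + 2) :=
  fun a l hl C hC hq time ht I => storage_bound a l hl C hC hq time ht I

end Pool.Agent.Lib_MP_22d2c8_sto.Old.StorageTimeHandin
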